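import Pool.Agent.N696.LI.Stm

/-! Project LI, part TRF: the trace form is nondegenerate -/

set_option autoImplicit false

namespace Pool.Agent.N696.LI.Trf

open Topology Pool.Agent.N696.LI

section

attribute [local instance] Matrix.linftyOpNormedRing Matrix.linftyOpNormedAlgebra

lemma comm_exp {m : ℕ} (A B : Mat m) (h : A * B = B * A) :
    NormedSpace.exp A * B = B * NormedSpace.exp A := by
  have h1 : Commute B A := h.symm
  exact (Commute.exp_right h1).symm

end

lemma comm_G {m : ℕ} {F : Type} [NormedAddCommGroup F] [NormedSpace ℝ F] (D : F →ₗ[ℝ] Mat m)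
    (G Γ : Subgroup (Mat m)ˣ) (hG : LinGrp D G Γ) (hc : ∀ X Y, D X * D Y = D Y * D X)
    (g : (Mat m)ˣ) (hg : g ∈ G) (X : F) : (g : Mat m) * D X = D X * (g : Mat m) := by
  have hg' := hG.gen hg
  clear hg
  induction hg' using Subgroup.closure_induction with
  | mem g h =>
    obtain ⟨Y, hY⟩ := h
    rw [hY]
    exact comm_exp _ _ (hc Y X)
  | one => simp
  | mul x y _ _ hx hy =>
    rw [Units.val_mul, Matrix.mul_assoc, hy, ← Matrix.mul_assoc, hx, Matrix.mul_assoc]
  | inv x _ hx =>
    have h1 : Commute (x : Mat m) (D X) := hx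
    exact h1.units_inv_left

theorem trf (hker : S_ker) (hnil : S_nil) : S_trf := by
  intro m F _ _ _ D G Γ hG hc hM M hMs hMt
  set S : Set (Mat m) := {M : Mat m | ∃ γ ∈ Γ, M = (γ : Mat m)} with hS
  have hfg : (Submodule.span ℝ S).FG := IsNoetherian.noetherian _
  obtain ⟨T, hTS, hT⟩ := (Submodule.fg_span_iff_fg_span_finset_subset S).1 hfg
  set l := T.card with hl
  let e : Fin l ≃ T := T.equivFin.symm
  let f : Fin l → Mat m := fun i => (e i : Mat m)
  have hrange : Set.range f = (T : Set (Mat m)) := by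
    ext N
    constructor
    · rintro ⟨i, rfl⟩
      exact (e i).2
    · intro hN
      exact ⟨e.symm ⟨N, hN⟩, by simp [f]⟩
  have hspan : Submodule.span ℝ S = Submodule.span ℝ (Set.range f) := by rw [hrange, hT]
  have hfS : ∀ i, f i ∈ S := fun i => hTS (e i).2
  choose γ hγ hfγ using hfS
  have hint : ∀ i a b, ∃ z : ℤ, f i a b = z := fun i a b => by
    rw [hfγ i]; exact hG.int _ (hγ i) a b
  choose zf hzf using hint
  -- multiplication
  have hmul : ∀ N ∈ Submodule.span ℝ S, ∀ i, N * f i ∈ Submodule.span ℝ S := by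
    intro N hN i
    induction hN using Submodule.span_induction with
    | mem N h =>
      obtain ⟨g, hg, rfl⟩ := h
      refine Submodule.subset_span ⟨g * γ i, Γ.mul_mem hg (hγ i), ?_⟩
      rw [hfγ i, Units.val_mul]
    | zero => rw [Matrix.zero_mul]; exact Submodule.zero_mem _
    | add x y _ _ hx hy => rw [Matrix.add_mul]; exact Submodule.add_mem _ hx hy
    | smul a x _ hx => rw [Matrix.smul_mul]; exact Submodule.smul_mem _ _ hx
  have hone : (1 : Mat m) ∈ Submodule.span ℝ S :=
    Submodule.subset_span ⟨1, Γ.one_mem, by simp⟩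
  -- the linear map
  let L : (Fin l → ℝ) →ₗ[ℝ] Mat m := Fintype.linearCombination ℝ f
  have hL : ∀ c : Fin l → ℝ, L c = ∑ i, c i • f i := fun c => Fintype.linearCombination_apply ℝ f c
  -- the matrix
  let A : Matrix (Fin l) (Fin l) ℚ := fun i j =>
    ∑ a, ∑ b, (zf j a b : ℚ) * (zf i b a : ℚ)
  have hA : ∀ i j, ((A i j : ℚ) : ℝ) = (f j * f i).trace := by
    intro i j
    simp only [A, Matrix.trace, Matrix.diag, Matrix.mul_apply]
    push_cast
    refine Finset.sum_congr rfl fun a _ => Finset.sum_congr rfl fun b _ => ?_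
    rw [hzf, hzf]
  have hLt : ∀ (c : Fin l → ℝ) i, (L c * f i).trace = ∑ j, (f j * f i).trace * c j := by
    intro c i
    rw [hL, Matrix.sum_mul, Matrix.trace_sum]
    refine Finset.sum_congr rfl fun j _ => ?_
    rw [Matrix.smul_mul, Matrix.trace_smul, smul_eq_mul, mul_comm]
  have hz : ∀ z : Fin l → ℚ, A.mulVec z = 0 → L (fun i => (z i : ℝ)) = 0 := by
    intro z hz
    set N := L (fun i => (z i : ℝ)) with hN
    have hNs : N ∈ Submodule.span ℝ S := by
      rw [hN, hL, hspan]
      exact Submodule.sum_mem _ fun i _ => Submodule.smul_mem _ _ (Submodule.subset_span ⟨i, rfl⟩)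
    have ht : ∀ i, (N * f i).trace = 0 := by
      intro i
      rw [hN, hLt]
      have h1 := congrFun hz i
      have h2 : ((A.mulVec z i : ℚ) : ℝ) = 0 := by rw [h1]; simp
      rw [Matrix.mulVec, dotProduct] at h2
      push_cast at h2
      rw [← h2]
      exact Finset.sum_congr rfl fun j _ => by rw [hA]
    have ht' : ∀ N' ∈ Submodule.span ℝ S, (N * N').trace = 0 := by
      intro N' hN'
      rw [hspan] at hN'
      induction hN' using Submodule.span_induction with
      | mem N' h =>
        obtain ⟨i, rfl⟩ := h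
        exact ht i
      | zero => simp
      | add x y _ _ hx hy => rw [Matrix.mul_add, Matrix.trace_add, hx, hy, add_zero]
      | smul a x _ hx => rw [Matrix.mul_smul, Matrix.trace_smul, hx, smul_zero]
    have hpow : ∀ k : ℕ, N ^ k ∈ Submodule.span ℝ S := by
      intro k
      induction k with
      | zero => rw [pow_zero]; exact hone
      | succ k ih =>
        rw [pow_succ]
        nth_rewrite 2 [hN]
        rw [hL, Matrix.mul_sum]
        refine Submodule.sum_mem _ fun i _ => ?_
        rw [Matrix.mul_smul]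
        exact Submodule.smul_mem _ _ (hmul _ ih i)
    have hnilp : IsNilpotent N := by
      apply hnil m N
      intro k hk
      obtain ⟨k, rfl⟩ := Nat.exists_eq_add_of_le hk
      rw [pow_add, pow_one]
      exact ht' _ (hpow k)
    refine hM N ?_ ?_ hnilp
    · intro a b
      refine ⟨∑ i, z i * (zf i a b : ℚ), ?_⟩
      rw [hN, hL, Matrix.sum_apply]
      push_cast
      refine Finset.sum_congr rfl fun i _ => ?_
      rw [Matrix.smul_apply, hzf, smul_eq_mul]
    · intro X
      rw [hN, hL, Matrix.sum_mul, Matrix.mul_sum]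
      refine Finset.sum_congr rfl fun i _ => ?_
      rw [Matrix.smul_mul, Matrix.mul_smul, hfγ i, comm_G D G Γ hG hc _ (hG.le (hγ i)) X]
  -- conclusion
  rw [hspan] at hMs
  obtain ⟨c, hc'⟩ := (Submodule.mem_span_range_iff_exists_fun ℝ).1 hMs
  have hLM : L c = M := by rw [hL, hc']
  have hsys : (A.map (fun q : ℚ => (q : ℝ))).mulVec c = 0 := by
    funext i
    rw [Matrix.mulVec, dotProduct]
    have h1 := hLt c i
    rw [hLM, hfγ i, hMt _ (hγ i)] at h1
    rw [Pi.zero_apply, h1]
    refine Finset.sum_congr rfl fun j _ => ?_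
    rw [Matrix.map_apply, hA, hfγ i]
  have hcs := hker l l A c hsys
  have hle : Submodule.span ℝ {y : Fin l → ℝ | ∃ z : Fin l → ℚ, A.mulVec z = 0 ∧
      y = fun i => (z i : ℝ)} ≤ LinearMap.ker L := by
    rw [Submodule.span_le]
    rintro y ⟨z, hz1, rfl⟩
    exact hz z hz1
  have := hle hcs
  rw [LinearMap.mem_ker, hLM] at this
  exact this

end Pool.Agent.N696.LI.Trf
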